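import Mathlib
import Pool.Agent.Work.MP_caf7e3_lc.UB.Count

/-!
Among polynomially many padding words one can find in polynomial time one with the longest value.
-/

namespace Pool.Agent.Work.MP_caf7e3_lc

open Pool.Agent.Work.MP_0532f7_lc Polynomial

/-- one step of the search for the longest value: the state is the pair of the number of padding
words tried (in unary) and the longest value so far -/
def bst (S : List Bool → List Bool) (x z : List Bool) : List Bool :=
  pr (true :: fs z) (if ((S (pr x (fs z))).drop (sn z).length).isEmpty then sn z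
    else S (pr x (fs z)))

theorem drop_isEmpty (u v : List Bool) : (u.drop v.length).isEmpty = true ↔
    u.length ≤ v.length := by
  rw [List.isEmpty_iff, List.drop_eq_nil_iff]

theorem bst_key (S : List Bool → List Bool) (x : List Bool) (n : ℕ) :
    fs ((bst S x)^[n] (pr [true] (S (pr x [])))) = un (n + 1) ∧
    (∃ j ≤ n, sn ((bst S x)^[n] (pr [true] (S (pr x [])))) = S (pr x (un j))) ∧
    ∀ j ≤ n, (S (pr x (un j))).length ≤ (sn ((bst S x)^[n] (pr [true] (S (pr x []))))).length := by
  induction n with
  | zero =>
    refine ⟨by simp [un], ⟨0, le_rfl, by simp [un]⟩, fun j hj => ?_⟩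
    rw [Nat.le_zero.1 hj]
    simp [un]
  | succ n ih =>
    obtain ⟨h1, ⟨j, hj, h2⟩, h3⟩ := ih
    rw [Function.iterate_succ_apply']
    set z := (bst S x)^[n] (pr [true] (S (pr x []))) with hz
    have e1 : fs (bst S x z) = un (n + 1 + 1) := by
      rw [bst, fs_pr, h1]; rfl
    refine ⟨e1, ?_, ?_⟩
    · by_cases hc : ((S (pr x (fs z))).drop (sn z).length).isEmpty = true
      · exact ⟨j, by omega, by rw [bst, sn_pr, if_pos hc, h2]⟩
      · exact ⟨n + 1, le_rfl, by rw [bst, sn_pr, if_neg hc, h1]⟩
    · intro i hi
      rw [bst, sn_pr]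
      by_cases hc : ((S (pr x (fs z))).drop (sn z).length).isEmpty = true
      · rw [if_pos hc]
        rcases Nat.lt_or_ge i (n + 1) with h4 | h4
        · exact h3 i (by omega)
        · rw [drop_isEmpty, h1] at hc
          rw [show i = n + 1 by omega]
          exact hc
      · rw [if_neg hc]
        rw [drop_isEmpty, not_le] at hc
        rcases Nat.lt_or_ge i (n + 1) with h4 | h4
        · exact (h3 i (by omega)).trans hc.le
        · rw [show i = n + 1 by omega, h1]

theorem exists_best {S : List Bool → List Bool} (hS : FP S) (P : Polynomial ℕ) :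
    ∃ f : List Bool → List Bool, FP f ∧
      (∀ x, ∃ j ≤ P.eval x.length, f x = S (pr x (un j))) ∧
      ∀ x, ∀ j ≤ P.eval x.length, (S (pr x (un j))).length ≤ (f x).length := by
  obtain ⟨k, hk, hk'⟩ := FP.clock P
  obtain ⟨Q, hQ⟩ := hS.length
  have hstep : FP fun z => bst S (fs z) (sn z) := by
    refine ((FP.cons true).comp FP.snI.fst).pair (FP.ite
      (c := fun z => ((S (pr (fs z) (fs (sn z)))).drop (sn (sn z)).length).isEmpty) ?_
      FP.snI.snd (hS.comp (FP.fsI.pair FP.snI.fst)))
    exact FPb.isNil.comp (FP.drop FP.snI.snd (hS.comp (FP.fsI.pair FP.snI.fst)))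
  have h0 : FP fun x => pr [true] (S (pr x [])) :=
    (FP.const [true]).pair (hS.comp (FP.id.pair FP.nil))
  have hit := FP.iterc (step := bst S) (p := fun x => x) (c := k)
    (g := fun x => pr [true] (S (pr x []))) hstep FP.id hk h0
    (2 * (P + 1) + 1 + Q.comp (2 * X + 1 + P)) (fun x i hi => by
      obtain ⟨h1, ⟨j, hj, h2⟩, -⟩ := bst_key S x i
      rw [hk'] at hi
      have h3 : (bst S x)^[i] (pr [true] (S (pr x []))) =
          pr (un (i + 1)) (S (pr x (un j))) := by
        rw [← h1, ← h2]
        cases i with
        | zero => simp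
        | succ i =>
          rw [Function.iterate_succ_apply']
          simp [bst]
      rw [h3, pr_length, un_length]
      have h4 := hQ (pr x (un j))
      have h5 : Q.eval (pr x (un j)).length ≤ Q.eval (2 * x.length + 1 + P.eval x.length) := by
        refine pmono Q ?_
        rw [pr_length, un_length]
        omega
      simp only [eval_add, eval_mul, eval_one, eval_ofNat, eval_comp, eval_X]
      omega)
  refine ⟨_, hit.snd, fun x => ?_, fun x => ?_⟩
  · obtain ⟨-, h2, -⟩ := bst_key S x (k x).length
    rw [hk'] at h2 ⊢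
    exact h2
  · obtain ⟨-, -, h3⟩ := bst_key S x (k x).length
    rw [hk'] at h3 ⊢
    exact h3

end Pool.Agent.Work.MP_caf7e3_lc
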