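import Mathlib
import Pool.Agent.Work.MP_caf7e3_lc.TI.Best

/-!
Counting the words all of whose values are short.
-/

namespace Pool.Agent.Work.MP_caf7e3_lc

open Pool.Agent.Work.MP_0532f7_lc Polynomial

open Classical in
/-- the words of length `m` such that the values with the paddings `1^0, ..., 1^K` have length at
most `n` -/
noncomputable def shortW (S : List Bool → List Bool) (m K n : ℕ) : Finset (List Bool) :=
  (ombWords m).filter fun x => ∀ j ≤ K, (S (pr x (un j))).length ≤ n

theorem mem_shortW {S : List Bool → List Bool} {m K n : ℕ} {x : List Bool} :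
    x ∈ shortW S m K n ↔ x.length = m ∧ ∀ j ≤ K, (S (pr x (un j))).length ≤ n := by
  rw [shortW, Finset.mem_filter, omb_mem_words]

theorem card_shortW_le (S : List Bool → List Bool) (m K n : ℕ) :
    (shortW S m K n).card ≤ 2 ^ m := by
  rw [← card_ombWords m]
  exact Finset.card_filter_le _ _

theorem card_shortW_mul {S : List Bool → List Bool}
    (hS : ∀ x y x' y', S (pr x y) = S (pr x' y') → x = x' ∧ y = y') (m K n : ℕ) :
    (shortW S m K n).card * (K + 1) ≤ 2 ^ (n + 1) := by
  have h1 : ((shortW S m K n) ×ˢ (Finset.range (K + 1))).card ≤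
      (Finset.range (2 ^ (n + 1))).card := by
    refine Finset.card_le_card_of_injOn (fun p => val (S (pr p.1 (un p.2)))) ?_ ?_
    · rintro ⟨x, j⟩ hp
      obtain ⟨hp1, hp2⟩ := Finset.mem_product.1 (Finset.mem_coe.1 hp)
      have hj : j < K + 1 := Finset.mem_range.1 hp2
      have h2 : (S (pr x (un j))).length ≤ n := (mem_shortW.1 hp1).2 j (by omega)
      have h3 := val_lt h2
      change val (S (pr x (un j))) ∈ ((Finset.range (2 ^ (n + 1)) : Finset ℕ) : Set ℕ)
      rw [Finset.mem_coe, Finset.mem_range]
      omega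
    · rintro ⟨x, j⟩ _ ⟨x', j'⟩ _ h
      have h2 := hS _ _ _ _ (val_inj h)
      exact Prod.ext h2.1 (un_inj h2.2)
  rwa [Finset.card_product, Finset.card_range, Finset.card_range] at h1

end Pool.Agent.Work.MP_caf7e3_lc
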