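import Mathlib

/-!
The choice of the number of padding words.
-/

namespace Pool.Agent.Work.MP_caf7e3_lc

open Polynomial

theorem ev_pow (c : ℕ) : ∃ N : ℕ, ∀ n, N ≤ n → n ^ (2 * c) * 8 ≤ 2 ^ n := by
  have h := tendsto_pow_const_mul_const_pow_of_abs_lt_one (2 * c) (r := (1 / 2 : ℝ))
    (by rw [abs_of_pos (by norm_num)]; norm_num)
  have h1 := (h.eventually (gt_mem_nhds (show (0 : ℝ) < 1 / 8 by norm_num)))
  obtain ⟨N, hN⟩ := Filter.eventually_atTop.1 h1
  refine ⟨N, fun n hn => ?_⟩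
  have h2 := hN n hn
  have h3 : (0 : ℝ) < 2 ^ n := by positivity
  have h4 : ((n : ℝ) ^ (2 * c) * (1 / 2) ^ n) * 2 ^ n = (n : ℝ) ^ (2 * c) := by
    rw [mul_assoc, ← mul_pow]
    norm_num
  have h5 : (n : ℝ) ^ (2 * c) * 8 ≤ 2 ^ n := by
    nlinarith
  exact_mod_cast h5

/-- The number of padding words is chosen such that few words are bad. -/
theorem exists_poly (c : ℕ) : ∃ P : Polynomial ℕ, ∀ (n a : ℕ) (b : ℕ → ℕ),
    a * (P.eval n + 1) ≤ 2 ^ (n + 1) → (∀ m < n, b m ≤ 2 ^ m) →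
    (∀ m < n, b m * (P.eval m + 1) ≤ 2 ^ (n + 1)) →
    n ^ c * (a + ∑ m ∈ Finset.range n, b m) ≤ 2 ^ n := by
  obtain ⟨N, hN⟩ := ev_pow c
  refine ⟨C (2 ^ (c + 5 + N)) * (X + 1) ^ (c + 2), fun n a b ha hb hb' => ?_⟩
  have hev : ∀ m, (C (2 ^ (c + 5 + N)) * (X + 1) ^ (c + 2) : Polynomial ℕ).eval m =
      2 ^ (c + 5 + N) * (m + 1) ^ (c + 2) := fun m => by simp
  simp only [hev] at ha hb'
  rcases Nat.eq_zero_or_pos n with h0 | hpos
  · subst h0
    have h1 : a = 0 := by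
      by_contra h
      have h2 : 1 ≤ a := Nat.one_le_iff_ne_zero.2 h
      have h3 : 2 ^ 5 ≤ 2 ^ (c + 5 + N) := Nat.pow_le_pow_right (by norm_num) (by omega)
      have h4 : 2 ^ (c + 5 + N) * (0 + 1) ^ (c + 2) + 1 ≤
          a * (2 ^ (c + 5 + N) * (0 + 1) ^ (c + 2) + 1) := Nat.le_mul_of_pos_left _ h2
      simp only [zero_add, one_pow, mul_one] at h4 ha
      omega
    simp [h1]
  rcases Nat.lt_or_ge n N with hn | hn
  · -- all the numbers vanish
    have hbig : ∀ m, 2 ^ (n + 1) < 2 ^ (c + 5 + N) * (m + 1) ^ (c + 2) + 1 := fun m => by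
      have h1 : 2 ^ (n + 1) ≤ 2 ^ (c + 5 + N) := Nat.pow_le_pow_right (by norm_num) (by omega)
      have h2 : 2 ^ (c + 5 + N) * 1 ≤ 2 ^ (c + 5 + N) * (m + 1) ^ (c + 2) :=
        Nat.mul_le_mul_left _ (Nat.one_le_pow _ _ (by omega))
      omega
    have key : ∀ m t, t * (2 ^ (c + 5 + N) * (m + 1) ^ (c + 2) + 1) ≤ 2 ^ (n + 1) → t = 0 := by
      intro m t ht
      by_contra h
      have h2 : 1 ≤ t := Nat.one_le_iff_ne_zero.2 h
      have h4 : 2 ^ (c + 5 + N) * (m + 1) ^ (c + 2) + 1 ≤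
          t * (2 ^ (c + 5 + N) * (m + 1) ^ (c + 2) + 1) := Nat.le_mul_of_pos_left _ h2
      have := hbig m
      omega
    have h1 := key n a ha
    have h2 : ∑ m ∈ Finset.range n, b m = 0 :=
      Finset.sum_eq_zero fun m hm => key m _ (hb' m (Finset.mem_range.1 hm))
    rw [h1, h2]
    simp
  · -- the large lengths
    have h8 := hN n hn
    set t := (n + 1) / 2 with ht
    -- every count of a length at least `t` is small
    have key : ∀ m u, n ≤ 2 * (m + 1) → u * (2 ^ (c + 5 + N) * (m + 1) ^ (c + 2) + 1) ≤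
        2 ^ (n + 1) → 2 ^ (c + 5) * n ^ (c + 2) * u ≤ 2 ^ (n + c + 3) := by
      intro m u hm hu
      have h1 : n ^ (c + 2) ≤ 2 ^ (c + 2) * (m + 1) ^ (c + 2) := by
        rw [← mul_pow]
        exact Nat.pow_le_pow_left hm _
      have h2 : 2 ^ (c + 5) ≤ 2 ^ (c + 5 + N) := Nat.pow_le_pow_right (by norm_num) (by omega)
      calc 2 ^ (c + 5) * n ^ (c + 2) * u ≤
            2 ^ (c + 5 + N) * (2 ^ (c + 2) * (m + 1) ^ (c + 2)) * u := by gcongr
        _ = 2 ^ (c + 2) * (u * (2 ^ (c + 5 + N) * (m + 1) ^ (c + 2))) := by ring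
        _ ≤ 2 ^ (c + 2) * 2 ^ (n + 1) := by
            refine Nat.mul_le_mul_left _ (le_trans ?_ hu)
            exact Nat.mul_le_mul_left _ (Nat.le_succ _)
        _ = 2 ^ (n + c + 3) := by rw [← pow_add]; congr 1; omega
    have hsplit : ∑ m ∈ Finset.range n, b m = ∑ m ∈ Finset.range t, b m +
        ∑ m ∈ Finset.Ico t n, b m :=
      (Finset.sum_range_add_sum_Ico _ (by omega)).symm
    have hA : ∑ m ∈ Finset.range t, b m ≤ 2 ^ t := by
      have h1 : ∑ m ∈ Finset.range t, b m ≤ ∑ m ∈ Finset.range t, 2 ^ m :=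
        Finset.sum_le_sum fun m hm => hb m (by have := Finset.mem_range.1 hm; omega)
      have h2 : ∑ m ∈ Finset.range t, 2 ^ m = 2 ^ t - 1 := by
        have := Nat.geomSum_eq (m := 2) le_rfl t
        simpa using this
      have h3 : 0 < 2 ^ t := by positivity
      omega
    have hB : 2 ^ (c + 5) * n ^ (c + 2) * (a + ∑ m ∈ Finset.Ico t n, b m) ≤
        (n + 1) * 2 ^ (n + c + 3) := by
      have h1 : 2 ^ (c + 5) * n ^ (c + 2) * ∑ m ∈ Finset.Ico t n, b m ≤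
          n * 2 ^ (n + c + 3) := by
        rw [Finset.mul_sum]
        refine (Finset.sum_le_card_nsmul _ _ (2 ^ (n + c + 3)) fun m hm => ?_).trans ?_
        · have h3 := Finset.mem_Ico.1 hm
          exact key m _ (by omega) (hb' m h3.2)
        · rw [smul_eq_mul, Nat.card_Ico]
          exact Nat.mul_le_mul_right _ (Nat.sub_le _ _)
      have h2 := key n a (by omega) ha
      rw [mul_add]
      have h3 : (n + 1) * 2 ^ (n + c + 3) = n * 2 ^ (n + c + 3) + 2 ^ (n + c + 3) := by ring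
      omega
    have hC : 2 * (n ^ c * (a + ∑ m ∈ Finset.Ico t n, b m)) ≤ 2 ^ n := by
      have h1 : (n + 1) * 2 ^ (n + c + 3) ≤ (2 * n) * 2 ^ (n + c + 3) :=
        Nat.mul_le_mul_right _ (by omega)
      have h2 : (2 ^ (c + 4) * n) * (2 * (n ^ c * (a + ∑ m ∈ Finset.Ico t n, b m)) * n) ≤
          (2 ^ (c + 4) * n) * 2 ^ n := by
        calc (2 ^ (c + 4) * n) * (2 * (n ^ c * (a + ∑ m ∈ Finset.Ico t n, b m)) * n) =
              2 ^ (c + 5) * n ^ (c + 2) * (a + ∑ m ∈ Finset.Ico t n, b m) := by ring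
          _ ≤ _ := hB
          _ ≤ _ := h1
          _ = (2 ^ (c + 4) * n) * 2 ^ n := by ring
      have h3 := Nat.le_of_mul_le_mul_left h2 (by positivity)
      refine le_trans ?_ h3
      exact Nat.le_mul_of_pos_right _ hpos
    have hD : 2 * (n ^ c * 2 ^ t) ≤ 2 ^ n := by
      have h1 : (2 * (n ^ c * 2 ^ t)) ^ 2 ≤ (2 ^ n) ^ 2 := by
        have h2 : 2 * t ≤ n + 1 := by omega
        calc (2 * (n ^ c * 2 ^ t)) ^ 2 = n ^ (2 * c) * (4 * 2 ^ (2 * t)) := by
              rw [mul_pow, mul_pow, ← pow_mul, ← pow_mul, mul_comm c 2, mul_comm t 2]; ring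
          _ ≤ n ^ (2 * c) * (4 * 2 ^ (n + 1)) := by
              refine Nat.mul_le_mul_left _ (Nat.mul_le_mul_left _ ?_)
              exact Nat.pow_le_pow_right (by norm_num) h2
          _ = (n ^ (2 * c) * 8) * 2 ^ n := by ring
          _ ≤ 2 ^ n * 2 ^ n := Nat.mul_le_mul_right _ h8
          _ = (2 ^ n) ^ 2 := by ring
      exact (Nat.pow_le_pow_iff_left (by norm_num)).1 h1
    have hE : n ^ c * ∑ m ∈ Finset.range t, b m ≤ n ^ c * 2 ^ t := Nat.mul_le_mul_left _ hA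
    rw [hsplit]
    have h9 : n ^ c * (a + (∑ m ∈ Finset.range t, b m + ∑ m ∈ Finset.Ico t n, b m)) =
        n ^ c * ∑ m ∈ Finset.range t, b m + n ^ c * (a + ∑ m ∈ Finset.Ico t n, b m) := by ring
    omega

end Pool.Agent.Work.MP_caf7e3_lc
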