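import Mathlib
import Pool.Agent.Work.MP_caf7e3_lc.UB.BHset
import Pool.Agent.Work.MP_caf7e3_lc.TI.Bad
import Pool.Agent.Work.MP_caf7e3_lc.TI.Numer

/-!
Any two numberings in GNPTime are isomorphic by an isomorphism which, together with its inverse,
agrees with polynomial-time translations at almost all programs.
-/

namespace Pool.Agent.Work.MP_caf7e3_lc

open Pool.Agent.Work.MP_0532f7_lc Polynomial

theorem ti_count {S : Bool → List Bool → List Bool} {f : Bool → List Bool → List Bool}
    {mp : Bool → List Bool → List Bool} {P : Polynomial ℕ}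
    (hf : ∀ b x, ∀ j ≤ P.eval x.length, (S b (pr x (un j))).length ≤ (f b x).length)
    (hmp : ∀ b x, x.length < (f b x).length → mp b x = f b x)
    (hlen : ∀ b x, x.length < (mp b x).length) (b : Bool) (n : ℕ) :
    {x : List Bool | x.length = n ∧ hh mp b x ≠ f (!b) x} ⊆
      (((shortW (S (!b)) n (P.eval n) n) ∪ (Finset.range n).biUnion fun m =>
        (shortW (S b) m (P.eval m) n).image (mp b) : Finset (List Bool)) : Set (List Bool)) := by
  classical
  rintro x ⟨hx, hne⟩
  simp only [Finset.coe_union, Finset.coe_biUnion, Finset.coe_range, Set.mem_Iio,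
    Finset.coe_image, Set.mem_union, Finset.mem_coe, Set.mem_iUnion, Set.mem_image, exists_prop]
  by_cases h1 : x.length < (f (!b) x).length
  · right
    have h2 : ¬ Even (dep mp b x) := by
      intro h
      apply hne
      rw [hh, if_pos h, hmp _ _ h1]
    obtain ⟨y, hy⟩ := exists_of_dep (mp := mp) (b := b) (x := x)
      (fun h0 => h2 (by rw [h0]; exact Even.zero))
    have h3 := hlen b y
    rw [hy, hx] at h3
    refine ⟨y.length, h3, y, mem_shortW.2 ⟨rfl, fun j hj => ?_⟩, hy⟩
    by_cases h4 : y.length < (f b y).length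
    · have h5 := hf b y j hj
      rw [← hmp b y h4, hy, hx] at h5
      exact h5
    · exact ((hf b y j hj).trans (not_lt.1 h4)).trans h3.le
  · left
    refine mem_shortW.2 ⟨hx, fun j hj => ?_⟩
    rw [← hx] at hj
    exact (hf (!b) x j hj).trans ((not_lt.1 h1).trans hx.le)

theorem ti_ncard {S : Bool → List Bool → List Bool} {f : Bool → List Bool → List Bool}
    {mp : Bool → List Bool → List Bool} {P : Polynomial ℕ} {c : ℕ}
    (hS : ∀ b x y x' y', S b (pr x y) = S b (pr x' y') → x = x' ∧ y = y')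
    (hf : ∀ b x, ∀ j ≤ P.eval x.length, (S b (pr x (un j))).length ≤ (f b x).length)
    (hmp : ∀ b x, x.length < (f b x).length → mp b x = f b x)
    (hlen : ∀ b x, x.length < (mp b x).length)
    (hP : ∀ (n a : ℕ) (b : ℕ → ℕ),
      a * (P.eval n + 1) ≤ 2 ^ (n + 1) → (∀ m < n, b m ≤ 2 ^ m) →
      (∀ m < n, b m * (P.eval m + 1) ≤ 2 ^ (n + 1)) →
      n ^ c * (a + ∑ m ∈ Finset.range n, b m) ≤ 2 ^ n) (b : Bool) (n : ℕ) :
    n ^ c * {x : List Bool | x.length = n ∧ hh mp b x ≠ f (!b) x}.ncard ≤ 2 ^ n := by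
  classical
  have h1 := Set.ncard_le_ncard (ti_count hf hmp hlen b n) (Finset.finite_toSet _)
  rw [Set.ncard_coe_finset] at h1
  have h2 : ((shortW (S (!b)) n (P.eval n) n) ∪ (Finset.range n).biUnion fun m =>
      (shortW (S b) m (P.eval m) n).image (mp b) : Finset (List Bool)).card ≤
      (shortW (S (!b)) n (P.eval n) n).card +
        ∑ m ∈ Finset.range n, (shortW (S b) m (P.eval m) n).card := by
    refine (Finset.card_union_le _ _).trans (Nat.add_le_add_left ?_ _)
    refine Finset.card_biUnion_le.trans (Finset.sum_le_sum fun m _ => Finset.card_image_le)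
  refine (Nat.mul_le_mul_left _ (h1.trans h2)).trans ?_
  refine hP n _ _ (card_shortW_mul (hS (!b)) _ _ _) (fun m _ => card_shortW_le _ _ _ _)
    (fun m _ => card_shortW_mul (hS b) _ _ _)

theorem typical {φ ψ : List Bool → ℕ →. ℕ} (hφ : GNPTime φ) (hψ : GNPTime ψ) (c : ℕ) :
    ∃ f g h k : List Bool → List Bool, PolyTime f ∧ PolyTime g ∧
      Function.Injective f ∧ Function.Injective g ∧
      (∀ i, ψ i = φ (f i)) ∧ (∀ i, φ i = ψ (g i)) ∧
      (∀ i, k (h i) = i) ∧ (∀ i, h (k i) = i) ∧ (∀ i, ψ i = φ (h i)) ∧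
      ∀ n, n ^ c * {i : List Bool | i.length = n ∧ h i ≠ f i}.ncard ≤ 2 ^ n ∧
        n ^ c * {i : List Bool | i.length = n ∧ k i ≠ g i}.ncard ≤ 2 ^ n := by
  classical
  obtain ⟨S1, hS1, hi1, ht1⟩ := family hψ hφ.1.1
  obtain ⟨S0, hS0, hi0, ht0⟩ := family hφ hψ.1.1
  obtain ⟨S, hSt, hSf⟩ : ∃ S : Bool → List Bool → List Bool, S true = S1 ∧ S false = S0 :=
    ⟨fun b => if b then S1 else S0, rfl, rfl⟩
  have hS : ∀ b, FP (S b) := by rintro (_ | _) <;> simpa [hSt, hSf]
  have hSi : ∀ b x y x' y', S b (pr x y) = S b (pr x' y') → x = x' ∧ y = y' := by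
    rintro (_ | _)
    · rw [hSf]; exact hi0
    · rw [hSt]; exact hi1
  obtain ⟨P, hP⟩ := exists_poly c
  choose f hfp hfe hfl using fun b => exists_best (hS b) P
  choose y hy hy' using fun (b : Bool) (n : ℕ) => exists_pad (hSi b) n
  have hfi : ∀ b, Function.Injective (f b) := fun b x x' hxx => by
    obtain ⟨j, -, hj⟩ := hfe b x
    obtain ⟨j', -, hj'⟩ := hfe b x'
    rw [hj, hj'] at hxx
    exact (hSi b _ _ _ _ hxx).1
  set mp : Bool → List Bool → List Bool := fun b z =>
    if z.length < (f b z).length then f b z else S b (pr z (y b z.length)) with hmp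
  have hmps : ∀ b z, ∃ u, mp b z = S b (pr z u) := fun b z => by
    by_cases h : z.length < (f b z).length
    · obtain ⟨j, -, hj⟩ := hfe b z
      exact ⟨un j, by rw [hmp]; simp only [if_pos h]; exact hj⟩
    · exact ⟨y b z.length, by rw [hmp]; simp only [if_neg h]⟩
  have hinj : ∀ b, Function.Injective (mp b) := fun b x x' hxx => by
    obtain ⟨u, hu⟩ := hmps b x
    obtain ⟨u', hu'⟩ := hmps b x'
    rw [hu, hu'] at hxx
    exact (hSi b _ _ _ _ hxx).1
  have hmpf : ∀ b x, x.length < (f b x).length → mp b x = f b x := fun b x h => if_pos h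
  have hlen : ∀ b x, x.length < (mp b x).length := fun b x => by
    by_cases h : x.length < (f b x).length
    · rw [hmpf b x h]; exact h
    · have : mp b x = S b (pr x (y b x.length)) := if_neg h
      rw [this]
      exact hy' b _ x rfl
  refine ⟨f false, f true, hh mp true, hh mp false, FP.polyTime (hfp false),
    FP.polyTime (hfp true), hfi false, hfi true, fun i => ?_, fun i => ?_,
    fun i => hh_hh hinj hlen true i, fun i => hh_hh hinj hlen false i, fun i => ?_,
    fun n => ⟨ti_ncard hSi hfl hmpf hlen hP true n, ti_ncard hSi hfl hmpf hlen hP false n⟩⟩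
  · obtain ⟨j, -, hj⟩ := hfe false i
    rw [hj, hSf]
    exact ht0 _ _
  · obtain ⟨j, -, hj⟩ := hfe true i
    rw [hj, hSt]
    exact ht1 _ _
  · rcases hh_cases hinj true i with h1 | h1
    · rw [h1]
      obtain ⟨u, hu⟩ := hmps false i
      change ψ i = φ (mp false i)
      rw [hu, hSf]
      exact ht0 _ _
    · have h2 : φ (hh mp true i) = ψ (mp true (hh mp true i)) := by
        obtain ⟨u, hu⟩ := hmps true (hh mp true i)
        rw [hu, hSt]
        exact ht1 _ _
      rw [h2, h1]

end Pool.Agent.Work.MP_caf7e3_lc
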